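import Pool.Agent.H12.CNP.ELH

/-!
# Row DGR of the board `cnp`: a nonabelian group with an elementary abelian subgroup of index `p`
-/

set_option autoImplicit false

namespace Pool.CND

open Matrix

theorem dgr_thm : S_DGR := by
  intro p G _ _ A hp hA hcard hna
  have : Fact p.Prime := ⟨hp⟩
  obtain ⟨n, ⟨φ⟩⟩ := ea_equiv p G A hp hA
  -- orders
  have hcA : Nat.card A = p ^ n := by
    rw [Nat.card_congr φ.toEquiv]
    change Nat.card (Fin n → ZMod p) = p ^ n
    rw [Nat.card_fun, Nat.card_zmod, Nat.card_eq_fintype_card, Fintype.card_fin]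
  have hidx : A.index = p := by
    have h1 := Subgroup.card_mul_index A
    have h2 : 0 < Nat.card A := Nat.card_pos
    rw [hcard, mul_comm] at h1
    exact Nat.eq_of_mul_eq_mul_right h2 h1
  have hnorm : A.Normal := by
    apply Subgroup.normal_of_index_eq_minFac_card
    rw [hidx, hcard, hcA, ← pow_succ', Nat.Prime.pow_minFac hp (Nat.succ_ne_zero n)]
  have htop : A ≠ ⊤ := by
    intro h
    rw [h, Subgroup.index_top] at hidx
    exact hp.one_lt.ne hidx
  obtain ⟨τ, hτ⟩ : ∃ τ : G, τ ∉ A := by
    by_contra hcon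
    push Not at hcon
    exact htop ((Subgroup.eq_top_iff' A).mpr hcon)
  have hτp : τ ^ p ∈ A := by
    have := A.pow_index_mem τ
    rwa [hidx] at this
  -- conjugation
  let c : A ≃* A := MulAut.conjNormal τ
  have hc : ∀ a : A, ((c a : A) : G) = τ * a * τ⁻¹ := fun a => rfl
  let L : (Fin n → ZMod p) →+ (Fin n → ZMod p) :=
    { toFun := fun v => Multiplicative.toAdd (φ (c.symm (φ.symm (Multiplicative.ofAdd v))))
      map_zero' := by simp
      map_add' := fun v w => by simp }
  let S : Matrix (Fin n) (Fin n) (ZMod p) := LinearMap.toMatrix' (L.toZModLinearMap p)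
  have hS : ∀ v, S *ᵥ v = Multiplicative.toAdd (φ (c.symm (φ.symm (Multiplicative.ofAdd v)))) := by
    intro v
    change (LinearMap.toMatrix' (L.toZModLinearMap p)) *ᵥ v = _
    rw [LinearMap.toMatrix'_mulVec]
    rfl
  have hSa : ∀ a : A, S *ᵥ Multiplicative.toAdd (φ a) = Multiplicative.toAdd (φ (c.symm a)) := by
    intro a
    rw [hS, ofAdd_toAdd, MulEquiv.symm_apply_apply]
  have hSc : ∀ a : A, S *ᵥ Multiplicative.toAdd (φ (c a)) = Multiplicative.toAdd (φ a) := by
    intro a
    rw [hSa, MulEquiv.symm_apply_apply]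
  -- powers of the conjugation
  have hcp : ∀ (j : ℕ) (a : A), (((c ^ j : MulAut A) a : A) : G) = τ ^ j * a * (τ ^ j)⁻¹ := by
    intro j
    induction j with
    | zero => intro a; simp
    | succ j ih =>
      intro a
      rw [pow_succ, MulAut.mul_apply, ih, hc, pow_succ]
      group
  have hSp : ∀ (j : ℕ) (a : A), (S ^ j) *ᵥ Multiplicative.toAdd (φ ((c ^ j : MulAut A) a)) =
      Multiplicative.toAdd (φ a) := by
    intro j
    induction j with
    | zero => intro a; simp
    | succ j ih =>
      intro a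
      have e1 : (c ^ (j + 1) : MulAut A) a = c ((c ^ j : MulAut A) a) := by
        rw [pow_succ']; rfl
      rw [e1, pow_succ, ← Matrix.mulVec_mulVec, hSc, ih]
  refine ⟨τ, n, φ, S, Multiplicative.toAdd (φ ⟨τ ^ p, hτp⟩), hτ, ?_, ⟨⟨τ ^ p, hτp⟩, rfl, rfl⟩, ?_,
    ?_, ?_⟩
  · intro a
    exact ⟨c a, hc a, hSc a⟩
  · -- `S ^ p = 1`
    have h1 : ∀ v, (S ^ p) *ᵥ v = (1 : Matrix (Fin n) (Fin n) (ZMod p)) *ᵥ v := by
      intro v
      have h2 := hSp p (φ.symm (Multiplicative.ofAdd v))
      have h3 : ((c ^ p : MulAut A) (φ.symm (Multiplicative.ofAdd v))) =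
          φ.symm (Multiplicative.ofAdd v) := by
        apply Subtype.ext
        rw [hcp, hA.2 _ hτp _ (φ.symm (Multiplicative.ofAdd v)).2, mul_assoc, mul_inv_cancel,
          mul_one]
      rw [h3, MulEquiv.apply_symm_apply, toAdd_ofAdd] at h2
      rw [h2, Matrix.one_mulVec]
    exact Matrix.mulVec_injective (funext h1)
  · -- `S ≠ 1`
    intro h1
    have hcom : ∀ a ∈ A, τ * a = a * τ := by
      intro a ha
      have h2 := hSc ⟨a, ha⟩
      rw [h1, Matrix.one_mulVec] at h2
      have h3 : c ⟨a, ha⟩ = ⟨a, ha⟩ := φ.injective (Multiplicative.toAdd.injective h2)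
      have h4 := congrArg Subtype.val h3
      rw [hc] at h4
      have h5 : τ * a * τ⁻¹ = a := h4
      calc τ * a = τ * a * τ⁻¹ * τ := by group
        _ = a * τ := by rw [h5]
    -- the centralizer of `A` is everything
    have hAC : A ≤ Subgroup.centralizer (A : Set G) := by
      intro a ha
      rw [Subgroup.mem_centralizer_iff]
      intro b hb
      exact hA.2 b hb a ha
    have hτC : τ ∈ Subgroup.centralizer (A : Set G) := by
      rw [Subgroup.mem_centralizer_iff]
      intro b hb
      exact (hcom b hb).symm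
    have hCtop : Subgroup.centralizer (A : Set G) = ⊤ := by
      have hdvd : (Subgroup.centralizer (A : Set G)).index ∣ p := by
        rw [← hidx]
        exact Subgroup.index_dvd_of_le hAC
      rcases (Nat.dvd_prime hp).mp hdvd with h | h
      · exact Subgroup.index_eq_one.mp h
      · exfalso
        apply hτ
        have h6 : A = Subgroup.centralizer (A : Set G) := by
          apply Subgroup.eq_of_le_of_card_ge hAC
          have e1 := Subgroup.card_mul_index A
          have e2 := Subgroup.card_mul_index (Subgroup.centralizer (A : Set G))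
          rw [hidx] at e1
          rw [h] at e2
          have e3 : Nat.card A * p = Nat.card (Subgroup.centralizer (A : Set G)) * p :=
            e1.trans e2.symm
          exact (Nat.eq_of_mul_eq_mul_right hp.pos e3).ge
        rw [h6]
        exact hτC
    have hAZ : A ≤ Subgroup.center G := by
      rw [Subgroup.centralizer_eq_top_iff_subset] at hCtop
      exact hCtop
    have hcyc : IsCyclic (G ⧸ A) := by
      apply isCyclic_of_prime_card (p := p)
      rw [← Subgroup.index_eq_card, hidx]
    obtain ⟨g, h, hgh⟩ := hna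
    apply hgh
    exact (MonoidHom.isMulCommutative_of_isCyclic_of_ker_le_center (QuotientGroup.mk' A)
      (by rw [QuotientGroup.ker_mk']; exact hAZ)).is_comm.comm g h
  · -- `S ε = ε`
    have h1 : c ⟨τ ^ p, hτp⟩ = ⟨τ ^ p, hτp⟩ := by
      apply Subtype.ext
      rw [hc]
      change τ * τ ^ p * τ⁻¹ = τ ^ p
      rw [← pow_succ', pow_succ, mul_assoc, mul_inv_cancel, mul_one]
    have h2 := hSc ⟨τ ^ p, hτp⟩
    rwa [h1] at h2

end Pool.CND
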