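import Pool.Agent.H37.CNP.Stmts

/-!
# Row ELH of the board `cnp`: a hyperplane avoiding two elements
-/

set_option autoImplicit false

namespace Pool.CND

/-- a finite group of exponent `p` is a finite dimensional vector space over `ZMod p` -/
theorem vs_equiv (p : ℕ) [Fact p.Prime] (M : Type) [AddCommGroup M] [Finite M]
    (h : ∀ x : M, p • x = 0) : ∃ n : ℕ, Nonempty (M ≃+ (Fin n → ZMod p)) := by
  let _ : Module (ZMod p) M := AddCommGroup.zmodModule (n := p) h
  have : Module.Finite (ZMod p) M := Module.Finite.of_finite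
  exact ⟨Module.finrank (ZMod p) M, ⟨(Module.finBasis (ZMod p) M).equivFun.toAddEquiv⟩⟩

/-- an elementary abelian subgroup is a finite dimensional vector space over `ZMod p` -/
theorem ea_equiv (p : ℕ) (G : Type) [Group G] [Finite G] (A : Subgroup G) (hp : p.Prime)
    (hA : EA p A) : ∃ n : ℕ, Nonempty (A ≃* Multiplicative (Fin n → ZMod p)) := by
  have : Fact p.Prime := ⟨hp⟩
  let _ : CommGroup A := { (inferInstance : Group A) with
    mul_comm := fun a b => Subtype.ext (hA.2 a a.2 b b.2) }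
  have : Finite (Additive A) := inferInstanceAs (Finite A)
  obtain ⟨n, ⟨e⟩⟩ := vs_equiv p (Additive A) (by
    intro x
    have : (x.toMul) ^ p = 1 := Subtype.ext (hA.1 _ x.toMul.2)
    exact this)
  refine ⟨n, ⟨?_⟩⟩
  exact
    { toFun := fun a => Multiplicative.ofAdd (e (Additive.ofMul a))
      invFun := fun v => (e.symm (Multiplicative.toAdd v)).toMul
      left_inv := fun a => by simp
      right_inv := fun v => by simp
      map_mul' := fun a b => by
        rw [← ofAdd_add, ← map_add]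
        rfl }

theorem elh_thm : S_ELH := by
  intro p G _ _ A hp hA g hg z hz hg1 hz1
  have : Fact p.Prime := ⟨hp⟩
  obtain ⟨n, ⟨φ⟩⟩ := ea_equiv p G A hp hA
  -- coordinates
  set u : Fin n → ZMod p := Multiplicative.toAdd (φ ⟨g, hg⟩) with hu
  set v : Fin n → ZMod p := Multiplicative.toAdd (φ ⟨z, hz⟩) with hv
  have hu0 : u ≠ 0 := by
    intro h
    apply hg1
    have h1 : φ ⟨g, hg⟩ = 1 := by
      rw [← ofAdd_toAdd (φ ⟨g, hg⟩), ← hu, h]; rfl
    have h2 : (⟨g, hg⟩ : A) = 1 := φ.injective (h1.trans (map_one φ).symm)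
    exact congrArg Subtype.val h2
  have hv0 : v ≠ 0 := by
    intro h
    apply hz1
    have h1 : φ ⟨z, hz⟩ = 1 := by
      rw [← ofAdd_toAdd (φ ⟨z, hz⟩), ← hv, h]; rfl
    have h2 : (⟨z, hz⟩ : A) = 1 := φ.injective (h1.trans (map_one φ).symm)
    exact congrArg Subtype.val h2
  obtain ⟨l, hlu, hlv⟩ : ∃ l : (Fin n → ZMod p) →ₗ[ZMod p] ZMod p, l u ≠ 0 ∧ l v ≠ 0 := by
    obtain ⟨i, hi⟩ := Function.ne_iff.mp hu0
    obtain ⟨j, hj⟩ := Function.ne_iff.mp hv0
    by_cases h1 : v i = 0
    · by_cases h2 : u j = 0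
      · refine ⟨(LinearMap.proj i : (Fin n → ZMod p) →ₗ[ZMod p] ZMod p) +
          (LinearMap.proj j : (Fin n → ZMod p) →ₗ[ZMod p] ZMod p), ?_, ?_⟩
        · simpa [h2] using hi
        · simpa [h1] using hj
      · exact ⟨(LinearMap.proj j : (Fin n → ZMod p) →ₗ[ZMod p] ZMod p), h2, hj⟩
    · exact ⟨(LinearMap.proj i : (Fin n → ZMod p) →ₗ[ZMod p] ZMod p), hi, h1⟩
  let f : A →* Multiplicative (ZMod p) :=
    { toFun := fun a => Multiplicative.ofAdd (l (Multiplicative.toAdd (φ a)))
      map_one' := by simp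
      map_mul' := fun a b => by simp }
  have hfs : Function.Surjective f := by
    intro t
    refine ⟨φ.symm (Multiplicative.ofAdd ((Multiplicative.toAdd t / l u) • u)), ?_⟩
    change Multiplicative.ofAdd (l (Multiplicative.toAdd (φ (φ.symm _)))) = t
    rw [MulEquiv.apply_symm_apply, toAdd_ofAdd, map_smul, smul_eq_mul, div_mul_cancel₀ _ hlu,
      ofAdd_toAdd]
  have hidx : f.ker.index = p := by
    rw [Subgroup.index_ker, MonoidHom.range_eq_top.mpr hfs, Subgroup.card_top]
    change Nat.card (ZMod p) = p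
    exact Nat.card_zmod p
  refine ⟨f.ker.map A.subtype, ?_, ?_, ?_, ?_⟩
  · rintro x ⟨a, -, rfl⟩
    exact a.2
  · rintro ⟨a, ha, hag⟩
    have : a = ⟨g, hg⟩ := Subtype.ext hag
    subst this
    have h3 : Multiplicative.ofAdd (l u) = 1 := ha
    exact hlu (by simpa using congrArg Multiplicative.toAdd h3)
  · rintro ⟨a, ha, hag⟩
    have : a = ⟨z, hz⟩ := Subtype.ext hag
    subst this
    have h3 : Multiplicative.ofAdd (l v) = 1 := ha
    exact hlv (by simpa using congrArg Multiplicative.toAdd h3)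
  · rw [Nat.card_congr (f.ker.equivMapOfInjective A.subtype A.subtype_injective).toEquiv.symm,
      ← Subgroup.card_mul_index f.ker, hidx, mul_comm]

end Pool.CND
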